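import Mathlib

/-!
# Prismatic collapsibility of presentation complexes

Let `P = ⟨a_0, …, a_{n-1} | R_0, …, R_{n-1}⟩` be a finite presentation and `K` its standard
2-complex.  A prismatic collapse of `K × I` first collapses every prism `C_j × I` onto
`(∂C_j × I) ∪ C_j^*`, where `C_j^*` is a PL disc whose interior projects homeomorphically onto the
interior of `C_j`, and then has to collapse the remaining 2-dimensional polyhedron
`Q = (K^1 × I) ∪ C_0^* ∪ ⋯ ∪ C_{n-1}^*` to a point.

The PL curve `∂C_j^* ⊂ ∂C_j × I` is the graph of a height function on the circle `∂C_j`, with
vertical segments at finitely many points; conversely every such curve bounds a disc `C_j^*`.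
Hence `Q` is the polyhedron obtained from `K^1 × I` by attaching a disc along the image of each of
these curves.  This file records such a position of the curves combinatorially:

* every loop `a_i` of `K^1` is subdivided into `m i` edges; over the `k`-th of them lies the *slab*
  `(i, k)` of `K^1 × I`, and over every vertex `w` of the subdivided `K^1` lies the *line* `w × I`;
* every line `w × I` is subdivided into `p w` vertical edges;
* every slab is cut into `q i k` two-cells by `q i k + 1` *levels* `0, 1, …, q i k`, which are
  pairwise disjoint arcs crossing the slab (they may have end points in common); level `0` is the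
  bottom and level `q i k` the top of the slab; the level `l` starts at the point with number
  `lft i k l` of the left line and ends at the point with number `rgt i k l` of the right line;
* the curve `∂C_j^*` follows, over the `k`-th edge of the `t`-th letter of `R_j`, the level
  `lev j t k`, and between two consecutive slabs it follows the vertical segment between the
  respective end points of these levels.
-/

set_option autoImplicit false

namespace Pool.Agent.Prismatic

/-- A 2-dimensional cell complex, given by its sets of vertices, edges and faces, the end points of
the edges, and the number `inc f e` of times the boundary of the face `f` runs over the edge `e`. -/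
structure TwoComplex where
  /-- type of names for vertices -/
  Vert : Type
  /-- type of names for edges -/
  Edge : Type
  /-- type of names for faces -/
  Face : Type
  /-- the two end points of an edge -/
  ends : Edge → Vert × Vert
  /-- how often the boundary of a face runs over an edge -/
  inc : Face → Edge → ℕ
  /-- the vertices of the complex -/
  verts : Set Vert
  /-- the edges of the complex -/
  edges : Set Edge
  /-- the faces of the complex -/
  faces : Set Face

/-- `X.Collapses F E V`: the complex consisting of the faces `F`, the edges `E` and the vertices
`V` collapses to a point, by elementary collapses: a face `f` is removed together with an edge `e`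
over which the boundary of `f` runs exactly once and that is in the boundary of no other face; an
edge `e` that is in the boundary of no face is removed together with an end point `x` of `e`,
different from the other end point, that is an end point of no other edge. -/
inductive TwoComplex.Collapses (X : TwoComplex) : Set X.Face → Set X.Edge → Set X.Vert → Prop
  | point (x : X.Vert) : X.Collapses ∅ ∅ {x}
  | face {F : Set X.Face} {E : Set X.Edge} {V : Set X.Vert} (f : X.Face) (e : X.Edge)
      (hf : f ∈ F) (he : e ∈ E) (h1 : X.inc f e = 1) (h2 : ∀ g ∈ F, g ≠ f → X.inc g e = 0)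
      (h : X.Collapses (F \ {f}) (E \ {e}) V) : X.Collapses F E V
  | edge {F : Set X.Face} {E : Set X.Edge} {V : Set X.Vert} (e : X.Edge) (x y : X.Vert)
      (he : e ∈ E) (hx : x ∈ V) (hends : X.ends e = (x, y) ∨ X.ends e = (y, x)) (hxy : x ≠ y)
      (h1 : ∀ f ∈ F, X.inc f e = 0)
      (h2 : ∀ e' ∈ E, e' ≠ e → (X.ends e').1 ≠ x ∧ (X.ends e').2 ≠ x)
      (h : X.Collapses F (E \ {e}) (V \ {x})) : X.Collapses F E V

/-- A 2-complex is collapsible if it collapses to a point. -/
def TwoComplex.Collapsible (X : TwoComplex) : Prop := X.Collapses X.faces X.edges X.verts

/-- Names of the lines `w × I`, where `w` is a vertex of the subdivided 1-skeleton: `none` is the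
line over the vertex of `K`, and `some (i, k)`, `0 < k < m i`, is the line over the `k`-th
subdivision point of the loop `a_i`. -/
abbrev Line (n : ℕ) : Type := Option (Fin n × ℕ)

/-- The line at the left end of the slab `(i, k)`. -/
def leftLine {n : ℕ} (i : Fin n) (k : ℕ) : Line n := if k = 0 then none else some (i, k)

/-- The line at the right end of the slab `(i, k)`, if `a_i` is subdivided into `m i` edges. -/
def rightLine {n : ℕ} (m : Fin n → ℕ) (i : Fin n) (k : ℕ) : Line n :=
  if k + 1 = m i then none else some (i, k + 1)

/-- A decomposition of `K^1 × I` into slabs and of the slabs into cells, where `K^1` is a wedge of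
`n` circles. -/
structure Slabs (n : ℕ) where
  /-- number of edges into which the loop `a_i` is subdivided -/
  m : Fin n → ℕ
  m_pos : ∀ i, 0 < m i
  /-- number of vertical edges of a line -/
  p : Line n → ℕ
  p_pos : ∀ w, 0 < p w
  /-- number of two-cells of a slab -/
  q : Fin n → ℕ → ℕ
  /-- position on the left line of the left end point of a level -/
  lft : Fin n → ℕ → ℕ → ℕ
  /-- position on the right line of the right end point of a level -/
  rgt : Fin n → ℕ → ℕ → ℕ
  lft_mono : ∀ i k, k < m i → Monotone (lft i k)
  rgt_mono : ∀ i k, k < m i → Monotone (rgt i k)
  lft_zero : ∀ i k, k < m i → lft i k 0 = 0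
  rgt_zero : ∀ i k, k < m i → rgt i k 0 = 0
  lft_top : ∀ i k, k < m i → lft i k (q i k) = p (leftLine i k)
  rgt_top : ∀ i k, k < m i → rgt i k (q i k) = p (rightLine m i k)

/-- The index after `t` in the cyclic order of `Fin L`. -/
def next {L : ℕ} (t : Fin L) : Fin L := ⟨(t.1 + 1) % L, Nat.mod_lt _ t.pos⟩

/-- A position of the boundary curves of the discs `C_j^*` in `K^1 × I`: a decomposition of
`K^1 × I` and, for the `t`-th letter of the relator `R j` (a power `±1` of `a_i`) and the `k`-th
edge of the loop `a_i`, the level that the curve follows over this edge.  The letter `(i, true)`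
stands for `a_i` and `(i, false)` for its inverse. -/
structure Position {n : ℕ} (R : Fin n → List (Fin n × Bool)) extends Slabs n where
  /-- the level followed by the `j`-th curve over the `k`-th edge of its `t`-th letter -/
  lev : (j : Fin n) → Fin (R j).length → ℕ → ℕ
  lev_le : ∀ j t k, k < m ((R j).get t).1 → lev j t k ≤ q ((R j).get t).1 k

/-- The faces of the polyhedron: `cell i k l` is the cell between the levels `l` and `l + 1` of the
slab `(i, k)`, and `disc j` is `C_j^*`. -/
inductive PFace (n : ℕ) : Type
  | cell (i : Fin n) (k l : ℕ) : PFace n
  | disc (j : Fin n) : PFace n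

/-- The edges of the polyhedron: `level i k l` is the level `l` of the slab `(i, k)`, and `vert w r`
is the vertical edge between the points `r` and `r + 1` of the line `w`. -/
inductive PEdge (n : ℕ) : Type
  | level (i : Fin n) (k l : ℕ) : PEdge n
  | vert (w : Line n) (r : ℕ) : PEdge n

/-- The vertical segment between the heights `x` and `y` contains the edge from `r` to `r + 1`. -/
def Between (x y r : ℕ) : Prop := min x y ≤ r ∧ r < max x y

instance (x y r : ℕ) : Decidable (Between x y r) := inferInstanceAs (Decidable (_ ∧ _))

namespace Position

variable {n : ℕ} {R : Fin n → List (Fin n × Bool)} (P : Position R)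

/-- Height over the vertex of `K`, at the left (`false`) or right (`true`) end of the annulus of
`a_i` cut open, of the strand belonging to the `t`-th letter `a_i^{±1}` of `R j`. -/
def ht (j : Fin n) (t : Fin (R j).length) (side : Bool) : ℕ :=
  if side then P.rgt ((R j).get t).1 (P.m ((R j).get t).1 - 1) (P.lev j t (P.m ((R j).get t).1 - 1))
  else P.lft ((R j).get t).1 0 (P.lev j t 0)

/-- Height at which the `j`-th curve starts the `t`-th letter of `R j`. -/
def startHt (j : Fin n) (t : Fin (R j).length) : ℕ := P.ht j t (!((R j).get t).2)

/-- Height at which the `j`-th curve ends the `t`-th letter of `R j`. -/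
def endHt (j : Fin n) (t : Fin (R j).length) : ℕ := P.ht j t ((R j).get t).2

/-- How often the boundary of a face runs over an edge. -/
def inc : PFace n → PEdge n → ℕ
  | .cell i k l, .level i' k' l' =>
      if i = i' ∧ k = k' then (if l' = l then 1 else 0) + (if l' = l + 1 then 1 else 0) else 0
  | .cell i k l, .vert w r =>
      (if leftLine i k = w ∧ P.lft i k l ≤ r ∧ r < P.lft i k (l + 1) then 1 else 0) +
      (if rightLine P.m i k = w ∧ P.rgt i k l ≤ r ∧ r < P.rgt i k (l + 1) then 1 else 0)
  | .disc j, .level i k l =>
      (Finset.univ.filter fun t : Fin (R j).length => ((R j).get t).1 = i ∧ P.lev j t k = l).card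
  | .disc j, .vert none r =>
      (Finset.univ.filter fun t : Fin (R j).length =>
        Between (P.endHt j t) (P.startHt j (next t)) r).card
  | .disc j, .vert (some (i, k)) r =>
      (Finset.univ.filter fun t : Fin (R j).length => ((R j).get t).1 = i ∧
        Between (P.rgt i (k - 1) (P.lev j t (k - 1))) (P.lft i k (P.lev j t k)) r).card

/-- The lines that belong to the decomposition. -/
def IsLine (w : Line n) : Prop := w = none ∨ ∃ i k, 0 < k ∧ k < P.m i ∧ w = some (i, k)

/-- The cell structure of the polyhedron `(K^1 × I) ∪ C_0^* ∪ ⋯ ∪ C_{n-1}^*`. -/
def complex : TwoComplex where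
  Vert := Line n × ℕ
  Edge := PEdge n
  Face := PFace n
  ends := fun e => match e with
    | .level i k l => ((leftLine i k, P.lft i k l), (rightLine P.m i k, P.rgt i k l))
    | .vert w r => ((w, r), (w, r + 1))
  inc := P.inc
  verts := {x | P.IsLine x.1 ∧ x.2 ≤ P.p x.1}
  edges := {e | (∃ i k l, k < P.m i ∧ l ≤ P.q i k ∧ e = .level i k l) ∨
    ∃ w r, P.IsLine w ∧ r < P.p w ∧ e = .vert w r}
  faces := {f | (∃ i k l, k < P.m i ∧ l < P.q i k ∧ f = .cell i k l) ∨ ∃ j, f = .disc j}

end Position

/-- The 2-complex of the presentation with relators `R 0, …, R (n - 1)` is prismatically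
collapsible: the discs `C_j^*` can be chosen such that the polyhedron
`(K^1 × I) ∪ C_0^* ∪ ⋯ ∪ C_{n-1}^*` collapses to a point. -/
def PrismaticallyCollapsible {n : ℕ} (R : Fin n → List (Fin n × Bool)) : Prop :=
  ∃ P : Position R, P.complex.Collapsible

end Pool.Agent.Prismatic
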