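import Pool.Agent.Prismatic.Main

/-!
# A basis presentation that is not prismatically collapsible

The relators `a b⁻¹ a b⁻² c⁻¹`, `b`, `c b a b⁻² c⁻¹ b` are reduced (even cyclically reduced) words
that form a basis of the free group on `a, b, c`, but the presentation complex is not prismatically
collapsible: in no position of the discs does any disc ever get a free edge.

In the sheet of `b` the eight strands fall into the classes `α` (strands of `b⁻¹` following `a`),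
`γ` (strands whose left end is joined to the right end of `c`) and `β` (the remaining two).  Before
the first disc is removed, every removed cell of this sheet has above it one of the sets
`∅, α, β ∪ γ, γ, α ∪ β, α ∪ β ∪ γ`, and every removed cell of the other sheets has nothing or
everything above it.
-/

set_option autoImplicit false

namespace Pool.Agent.Prismatic.Example

open Pool.Agent.Prismatic

/-- The three relators; `0, 1, 2` stand for `a, b, c` and `false` marks an inverse. -/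
def W : Fin 3 → List (Fin 3 × Bool)
  | 0 => [(0, true), (1, false), (0, true), (1, false), (1, false), (2, false)]
  | 1 => [(1, true)]
  | 2 => [(2, true), (1, true), (0, true), (1, false), (1, false), (2, false), (1, true)]

def x0 : Strand W := ⟨0, ⟨0, by decide⟩⟩
def x1 : Strand W := ⟨0, ⟨1, by decide⟩⟩
def x2 : Strand W := ⟨0, ⟨2, by decide⟩⟩
def x3 : Strand W := ⟨0, ⟨3, by decide⟩⟩
def x4 : Strand W := ⟨0, ⟨4, by decide⟩⟩
def x5 : Strand W := ⟨0, ⟨5, by decide⟩⟩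
def y0 : Strand W := ⟨1, ⟨0, by decide⟩⟩
def z0 : Strand W := ⟨2, ⟨0, by decide⟩⟩
def z1 : Strand W := ⟨2, ⟨1, by decide⟩⟩
def z2 : Strand W := ⟨2, ⟨2, by decide⟩⟩
def z3 : Strand W := ⟨2, ⟨3, by decide⟩⟩
def z4 : Strand W := ⟨2, ⟨4, by decide⟩⟩
def z5 : Strand W := ⟨2, ⟨5, by decide⟩⟩
def z6 : Strand W := ⟨2, ⟨6, by decide⟩⟩

theorem strand_cases (s : Strand W) : s = x0 ∨ s = x1 ∨ s = x2 ∨ s = x3 ∨ s = x4 ∨ s = x5 ∨
    s = y0 ∨ s = z0 ∨ s = z1 ∨ s = z2 ∨ s = z3 ∨ s = z4 ∨ s = z5 ∨ s = z6 := by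
  revert s
  decide

/-- Uniformity conditions. -/
def U (i : Fin 3) (X : Set (Strand W)) : Prop :=
  (i = 0 → (x0 ∈ X ↔ x2 ∈ X) ∧ (x2 ∈ X ↔ z2 ∈ X)) ∧
  (i = 1 → (x1 ∈ X ↔ x3 ∈ X) ∧ (x3 ∈ X ↔ z3 ∈ X) ∧ (y0 ∈ X ↔ z6 ∈ X) ∧
    (x4 ∈ X ↔ z1 ∈ X) ∧ (z1 ∈ X ↔ z4 ∈ X)) ∧
  (i = 2 → (x5 ∈ X ↔ z0 ∈ X) ∧ (z0 ∈ X ↔ z5 ∈ X))

/-- Conditions on the sets of strands above removed cells. -/
def G (P : Position W) (i : Fin 3) (X : Set (Strand W)) : Prop :=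
  U i X ∧ (i = 1 → ((y0 ∈ X ↔ x1 ∈ X) ∨ (y0 ∈ X ↔ x4 ∈ X)) ∧
    (x4 ∈ X → y0 ∉ X → ∃ r, P.Unstr r ∧ P.upC r x4 ∧ ¬ P.upC r x3) ∧
    (x4 ∉ X → y0 ∈ X → ∃ r, P.Unstr r ∧ P.upC r x3 ∧ ¬ P.upC r x4))

section Mem

variable (u : Strand W → Prop)

theorem a1 : x0 ∈ upU u 0 false ↔ u x5 := ⟨fun h => h.2, fun h => ⟨rfl, h⟩⟩
theorem a2 : x2 ∈ upU u 0 false ↔ u x1 := ⟨fun h => h.2, fun h => ⟨rfl, h⟩⟩
theorem a3 : z2 ∈ upU u 0 false ↔ u z1 := ⟨fun h => h.2, fun h => ⟨rfl, h⟩⟩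
theorem a4 : x0 ∈ upU u 0 true ↔ u x0 := ⟨fun h => h.2, fun h => ⟨rfl, h⟩⟩
theorem a5 : x2 ∈ upU u 0 true ↔ u x2 := ⟨fun h => h.2, fun h => ⟨rfl, h⟩⟩
theorem a6 : z2 ∈ upU u 0 true ↔ u z2 := ⟨fun h => h.2, fun h => ⟨rfl, h⟩⟩

theorem c1 : x5 ∈ upU u 2 false ↔ u x5 := ⟨fun h => h.2, fun h => ⟨rfl, h⟩⟩
theorem c2 : z0 ∈ upU u 2 false ↔ u z6 := ⟨fun h => h.2, fun h => ⟨rfl, h⟩⟩
theorem c3 : z5 ∈ upU u 2 false ↔ u z5 := ⟨fun h => h.2, fun h => ⟨rfl, h⟩⟩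
theorem c4 : x5 ∈ upU u 2 true ↔ u x4 := ⟨fun h => h.2, fun h => ⟨rfl, h⟩⟩
theorem c5 : z0 ∈ upU u 2 true ↔ u z0 := ⟨fun h => h.2, fun h => ⟨rfl, h⟩⟩
theorem c6 : z5 ∈ upU u 2 true ↔ u z4 := ⟨fun h => h.2, fun h => ⟨rfl, h⟩⟩

theorem b1 : x1 ∈ upU u 1 false ↔ u x1 := ⟨fun h => h.2, fun h => ⟨rfl, h⟩⟩
theorem b2 : x3 ∈ upU u 1 false ↔ u x3 := ⟨fun h => h.2, fun h => ⟨rfl, h⟩⟩
theorem b3 : z3 ∈ upU u 1 false ↔ u z3 := ⟨fun h => h.2, fun h => ⟨rfl, h⟩⟩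
theorem b4 : y0 ∈ upU u 1 false ↔ u y0 := ⟨fun h => h.2, fun h => ⟨rfl, h⟩⟩
theorem b5 : z6 ∈ upU u 1 false ↔ u z5 := ⟨fun h => h.2, fun h => ⟨rfl, h⟩⟩
theorem b6 : x4 ∈ upU u 1 false ↔ u x4 := ⟨fun h => h.2, fun h => ⟨rfl, h⟩⟩
theorem b7 : z1 ∈ upU u 1 false ↔ u z0 := ⟨fun h => h.2, fun h => ⟨rfl, h⟩⟩
theorem b8 : z4 ∈ upU u 1 false ↔ u z4 := ⟨fun h => h.2, fun h => ⟨rfl, h⟩⟩

theorem d1 : x1 ∈ upU u 1 true ↔ u x0 := ⟨fun h => h.2, fun h => ⟨rfl, h⟩⟩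
theorem d2 : x3 ∈ upU u 1 true ↔ u x2 := ⟨fun h => h.2, fun h => ⟨rfl, h⟩⟩
theorem d3 : z3 ∈ upU u 1 true ↔ u z2 := ⟨fun h => h.2, fun h => ⟨rfl, h⟩⟩
theorem d4 : y0 ∈ upU u 1 true ↔ u y0 := ⟨fun h => h.2, fun h => ⟨rfl, h⟩⟩
theorem d5 : z6 ∈ upU u 1 true ↔ u z6 := ⟨fun h => h.2, fun h => ⟨rfl, h⟩⟩
theorem d6 : x4 ∈ upU u 1 true ↔ u x3 := ⟨fun h => h.2, fun h => ⟨rfl, h⟩⟩
theorem d7 : z1 ∈ upU u 1 true ↔ u z1 := ⟨fun h => h.2, fun h => ⟨rfl, h⟩⟩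
theorem d8 : z4 ∈ upU u 1 true ↔ u z3 := ⟨fun h => h.2, fun h => ⟨rfl, h⟩⟩

end Mem

/-! ### Propositional facts -/

theorem prop_a (x1 x3 y0 z5 x4 x5 z6 z1 W1 W2 : Prop)
    (w1 : W1 → x3 → x4) (w2 : W2 → x4 → x3)
    (e1 : x5 ↔ z6) (e2 : z6 ↔ z5)
    (e3 : x1 ↔ x3) (e5 : y0 ↔ z5) (e8 : (y0 ↔ x1) ∨ (y0 ↔ x4))
    (f4 : x3 ↔ z1) (f7 : x3 → ¬ y0 → W1) (f8 : ¬ x3 → y0 → W2) :
    (x5 ↔ x1) ∧ (x1 ↔ z1) := by
  grind

theorem prop_c (x1 x3 y0 z5 x4 x5 z6 W1 W2 : Prop)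
    (w1 : W1 → x3 → x4) (w2 : W2 → x4 → x3)
    (e1 : x5 ↔ x1)
    (e3 : x1 ↔ x3) (e5 : y0 ↔ z5) (e8 : (y0 ↔ x1) ∨ (y0 ↔ x4))
    (f3 : y0 ↔ z6) (f7 : x3 → ¬ y0 → W1) (f8 : ¬ x3 → y0 → W2) :
    (x5 ↔ z6) ∧ (z6 ↔ z5) := by
  grind

theorem prop_b_left (x1 x3 z3 y0 z5 x4 z0 z4 x5 z6 z1 : Prop)
    (e1 : x5 ↔ z6) (e2 : z6 ↔ z5) (e3 : x4 ↔ z0) (e4 : z0 ↔ z4)
    (e5 : x5 ↔ x1) (e6 : x1 ↔ z1) (f3 : y0 ↔ z6) (f4 : x3 ↔ z1) (f5 : z1 ↔ z3) :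
    ((x1 ↔ x3) ∧ (x3 ↔ z3) ∧ (y0 ↔ z5) ∧ (x4 ↔ z0) ∧ (z0 ↔ z4)) ∧
      (y0 ↔ x1) ∧ (y0 ↔ x3) := by
  grind

theorem prop_b_right (x0 x2 z2 x1 x3 z3 y0 z5 x5 z6 z1 : Prop)
    (e1 : x5 ↔ z6) (e2 : z6 ↔ z5) (e5 : x5 ↔ x1) (e6 : x1 ↔ z1)
    (e7 : x0 ↔ x2) (e8 : x2 ↔ z2) (f1 : x1 ↔ x3) (f2 : x3 ↔ z3) (f3 : y0 ↔ z5) :
    ((x0 ↔ x2) ∧ (x2 ↔ z2) ∧ (y0 ↔ z6) ∧ (x3 ↔ z1) ∧ (z1 ↔ z3)) ∧
      (y0 ↔ x1) ∧ (y0 ↔ x3) := by
  grind

variable {P : Position W}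

theorem G_a_left {u : Strand W → Prop} (h : G P 0 (upU u 0 false)) :
    (u x5 ↔ u x1) ∧ (u x1 ↔ u z1) := by
  have := h.1.1 rfl
  rwa [a1, a2, a3] at this

theorem G_c_left {u : Strand W → Prop} (h : G P 2 (upU u 2 false)) :
    (u x5 ↔ u z6) ∧ (u z6 ↔ u z5) := by
  have := h.1.2.2 rfl
  rwa [c1, c2, c3] at this

theorem G_c_right {u : Strand W → Prop} (h : G P 2 (upU u 2 true)) :
    (u x4 ↔ u z0) ∧ (u z0 ↔ u z4) := by
  have := h.1.2.2 rfl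
  rwa [c4, c5, c6] at this

theorem G_a_right {u : Strand W → Prop} (h : G P 0 (upU u 0 true)) :
    (u x0 ↔ u x2) ∧ (u x2 ↔ u z2) := by
  have := h.1.1 rfl
  rwa [a4, a5, a6] at this

theorem G_b_left {u : Strand W → Prop} (h : G P 1 (upU u 1 false)) :
    (u x1 ↔ u x3) ∧ (u x3 ↔ u z3) ∧ (u y0 ↔ u z5) ∧ (u x4 ↔ u z0) ∧ (u z0 ↔ u z4) ∧
      ((u y0 ↔ u x1) ∨ (u y0 ↔ u x4)) := by
  have h1 := h.1.2.1 rfl
  have h2 := (h.2 rfl).1
  rw [b1, b2, b3, b4, b5, b6, b7, b8] at h1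
  rw [b4, b1, b6] at h2
  exact ⟨h1.1, h1.2.1, h1.2.2.1, h1.2.2.2.1, h1.2.2.2.2, h2⟩

theorem G_b_right {u : Strand W → Prop} (h : G P 1 (upU u 1 true)) :
    (u x0 ↔ u x2) ∧ (u x2 ↔ u z2) ∧ (u y0 ↔ u z6) ∧ (u x3 ↔ u z1) ∧ (u z1 ↔ u z3) ∧
      ((u y0 ↔ u x0) ∨ (u y0 ↔ u x3)) ∧
      (u x3 → ¬ u y0 → ∃ r, P.Unstr r ∧ P.upC r x4 ∧ ¬ P.upC r x3) ∧
      (¬ u x3 → u y0 → ∃ r, P.Unstr r ∧ P.upC r x3 ∧ ¬ P.upC r x4) := by
  have h1 := h.1.2.1 rfl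
  have h2 := h.2 rfl
  rw [d1, d2, d3, d4, d5, d6, d7, d8] at h1
  rw [d4, d1, d6] at h2
  exact ⟨h1.1, h1.2.1, h1.2.2.1, h1.2.2.2.1, h1.2.2.2.2, h2.1, h2.2.1, h2.2.2⟩

/-- The key step: the sheets at one level determine each other. -/
theorem key {u : Strand W → Prop} (hu : P.Adm u) (i : Fin 3) (side : Bool)
    (h : ∀ i' side', ¬ (i' = i ∧ side' = side) → G P i' (upU u i' side')) :
    U i (upU u i side) ∧ (i = 1 → ((u y0 ↔ u x1) ∧ (u y0 ↔ u x3))) := by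
  -- comparability with the witnesses
  have w1 : (∃ r, P.Unstr r ∧ P.upC r x4 ∧ ¬ P.upC r x3) → (u x3 → u x4) := by
    rintro ⟨r, hr, h1, h2⟩ h3
    rcases hu r hr with h4 | h4
    · exact absurd (h4 _ h3) h2
    · exact h4 _ h1
  have w2 : (∃ r, P.Unstr r ∧ P.upC r x3 ∧ ¬ P.upC r x4) → (u x4 → u x3) := by
    rintro ⟨r, hr, h1, h2⟩ h3
    rcases hu r hr with h4 | h4
    · exact absurd (h4 _ h3) h2
    · exact h4 _ h1
  have hA : ¬ (i = 0 ∧ side = false) → (u x5 ↔ u x1) ∧ (u x1 ↔ u z1) := fun hne =>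
    G_a_left (h 0 false fun h' => hne ⟨h'.1.symm, h'.2.symm⟩)
  have hC : ¬ (i = 2 ∧ side = false) → (u x5 ↔ u z6) ∧ (u z6 ↔ u z5) := fun hne =>
    G_c_left (h 2 false fun h' => hne ⟨h'.1.symm, h'.2.symm⟩)
  have hC' : ¬ (i = 2 ∧ side = true) → (u x4 ↔ u z0) ∧ (u z0 ↔ u z4) := fun hne =>
    G_c_right (h 2 true fun h' => hne ⟨h'.1.symm, h'.2.symm⟩)
  have hA' : ¬ (i = 0 ∧ side = true) → (u x0 ↔ u x2) ∧ (u x2 ↔ u z2) := fun hne =>
    G_a_right (h 0 true fun h' => hne ⟨h'.1.symm, h'.2.symm⟩)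
  have hB : ¬ (i = 1 ∧ side = false) → _ := fun hne =>
    G_b_left (h 1 false fun h' => hne ⟨h'.1.symm, h'.2.symm⟩)
  have hB' : ¬ (i = 1 ∧ side = true) → _ := fun hne =>
    G_b_right (h 1 true fun h' => hne ⟨h'.1.symm, h'.2.symm⟩)
  unfold U
  fin_cases i <;> cases side
  · -- left end of `a`
    simp only [Fin.isValue, Fin.zero_eta] at *
    obtain ⟨e1, e2⟩ := hC (by simp)
    obtain ⟨e3, e4, e5, e6, e7, e8⟩ := hB (by simp)
    obtain ⟨f1, f2, f3, f4, f5, f6, f7, f8⟩ := hB' (by simp)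
    refine ⟨⟨fun _ => ?_, fun h' => absurd h' (by decide), fun h' => absurd h' (by decide)⟩,
      fun h' => absurd h' (by decide)⟩
    rw [a1, a2, a3]
    exact prop_a _ _ _ _ _ _ _ _ _ _ w1 w2 e1 e2 e3 e5 e8 f4 f7 f8
  · -- right end of `a`
    simp only [Fin.isValue, Fin.zero_eta] at *
    obtain ⟨f1, f2, -⟩ := hB' (by simp)
    refine ⟨⟨fun _ => ?_, fun h' => absurd h' (by decide), fun h' => absurd h' (by decide)⟩,
      fun h' => absurd h' (by decide)⟩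
    rw [a4, a5, a6]
    exact ⟨f1, f2⟩
  · -- left end of `b`
    simp only [Fin.isValue, Fin.mk_one] at *
    obtain ⟨e1, e2⟩ := hC (by simp)
    obtain ⟨e3, e4⟩ := hC' (by simp)
    obtain ⟨e5, e6⟩ := hA (by simp)
    obtain ⟨f1, f2, f3, f4, f5, f6, f7, f8⟩ := hB' (by simp)
    have hall := prop_b_left _ _ _ _ _ _ _ _ _ _ _ e1 e2 e3 e4 e5 e6 f3 f4 f5
    refine ⟨⟨fun h' => absurd h' (by decide), fun _ => ?_, fun h' => absurd h' (by decide)⟩,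
      fun _ => hall.2⟩
    rw [b1, b2, b3, b4, b5, b6, b7, b8]
    exact hall.1
  · -- right end of `b`
    simp only [Fin.isValue, Fin.mk_one] at *
    obtain ⟨e1, e2⟩ := hC (by simp)
    obtain ⟨e5, e6⟩ := hA (by simp)
    obtain ⟨e7, e8⟩ := hA' (by simp)
    obtain ⟨f1, f2, f3, f4, f5, f6⟩ := hB (by simp)
    have hall := prop_b_right _ _ _ _ _ _ _ _ _ _ _ e1 e2 e5 e6 e7 e8 f1 f2 f3
    refine ⟨⟨fun h' => absurd h' (by decide), fun _ => ?_, fun h' => absurd h' (by decide)⟩,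
      fun _ => hall.2⟩
    rw [d1, d2, d3, d4, d5, d6, d7, d8]
    exact hall.1
  · -- left end of `c`
    simp only [Fin.isValue, Fin.reduceFinMk] at *
    obtain ⟨e1, e2⟩ := hA (by simp)
    obtain ⟨e3, e4, e5, e6, e7, e8⟩ := hB (by simp)
    obtain ⟨f1, f2, f3, f4, f5, f6, f7, f8⟩ := hB' (by simp)
    refine ⟨⟨fun h' => absurd h' (by decide), fun h' => absurd h' (by decide), fun _ => ?_⟩,
      fun h' => absurd h' (by decide)⟩
    rw [c1, c2, c3]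
    exact prop_c _ _ _ _ _ _ _ _ _ w1 w2 e1 e3 e5 e8 f3 f7 f8
  · -- right end of `c`
    simp only [Fin.isValue, Fin.reduceFinMk] at *
    obtain ⟨e3, e4, e5, e6, e7, e8⟩ := hB (by simp)
    refine ⟨⟨fun h' => absurd h' (by decide), fun h' => absurd h' (by decide), fun _ => ?_⟩,
      fun h' => absurd h' (by decide)⟩
    rw [c4, c5, c6]
    exact ⟨e6, e7⟩

theorem adm_upC (P : Position W) (r : ℕ) : P.Adm (P.upC r) := by
  intro r' _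
  rcases le_total r' r with h | h
  · exact Or.inl fun c hc => lt_of_le_of_lt h hc
  · exact Or.inr fun c hc => lt_of_le_of_lt h hc

theorem obstruction (P : Position W) : P.Obstruction (G P) U where
  weaken := fun i X h => h.1
  empty := fun i => by
    refine ⟨⟨fun _ => ?_, fun _ => ?_, fun _ => ?_⟩, fun _ => ⟨?_, ?_, ?_⟩⟩ <;> simp
  all := fun i => by
    refine ⟨⟨?_, ?_, ?_⟩, ?_⟩
    · rintro rfl
      exact ⟨iff_of_true rfl rfl, iff_of_true rfl rfl⟩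
    · rintro rfl
      exact ⟨iff_of_true rfl rfl, iff_of_true rfl rfl, iff_of_true rfl rfl, iff_of_true rfl rfl,
        iff_of_true rfl rfl⟩
    · rintro rfl
      exact ⟨iff_of_true rfl rfl, iff_of_true rfl rfl⟩
    · rintro rfl
      exact ⟨Or.inl (iff_of_true rfl rfl), fun _ h => absurd rfl h, fun h _ => absurd rfl h⟩
  step := fun r _ hU i side h => by
    have hk := key (adm_upC P r) i side h
    refine ⟨hk.1, ?_⟩
    rintro rfl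
    obtain ⟨h1, h2⟩ := hk.2 rfl
    cases side with
    | false =>
      rw [b4, b1, b6]
      exact ⟨Or.inl h1, fun h3 h4 => ⟨r, hU, h3, fun h5 => h4 (h2.2 h5)⟩,
        fun h3 h4 => ⟨r, hU, h2.1 h4, h3⟩⟩
    | true =>
      rw [d4, d1, d6]
      exact ⟨Or.inr h2, fun h3 h4 => absurd (h2.2 h3) h4, fun h3 h4 => absurd (h2.1 h4) h3⟩
  step' := fun u hu i side h => (key hu i side h).1
  single := fun i X s hs hnot hX hins => by
    have hne : ∀ t : Strand W, t ≠ s → (t ∈ insert s X ↔ t ∈ X) := fun t ht => by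
      rw [Set.mem_insert_iff]
      exact ⟨fun h => h.resolve_left ht, Or.inr⟩
    have hself : s ∈ insert s X := Set.mem_insert _ _
    have two : ∀ t : Strand W, t ≠ s → (s ∈ X ↔ t ∈ X) → (s ∈ insert s X ↔ t ∈ insert s X) →
        False := by
      intro t ht h1 h2
      exact hnot (h1.2 ((hne t ht).1 (h2.1 hself)))
    subst hs
    rcases strand_cases s with rfl | rfl | rfl | rfl | rfl | rfl | rfl | rfl | rfl | rfl | rfl |
      rfl | rfl | rfl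
    · exact two x2 (by decide) (hX.1 rfl).1 (hins.1 rfl).1
    · exact two x3 (by decide) (hX.2.1 rfl).1 (hins.2.1 rfl).1
    · exact two x0 (by decide) (hX.1 rfl).1.symm (hins.1 rfl).1.symm
    · exact two x1 (by decide) (hX.2.1 rfl).1.symm (hins.2.1 rfl).1.symm
    · exact two z1 (by decide) (hX.2.1 rfl).2.2.2.1 (hins.2.1 rfl).2.2.2.1
    · exact two z0 (by decide) (hX.2.2 rfl).1 (hins.2.2 rfl).1
    · exact two z6 (by decide) (hX.2.1 rfl).2.2.1 (hins.2.1 rfl).2.2.1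
    · exact two x5 (by decide) (hX.2.2 rfl).1.symm (hins.2.2 rfl).1.symm
    · exact two x4 (by decide) (hX.2.1 rfl).2.2.2.1.symm (hins.2.1 rfl).2.2.2.1.symm
    · exact two x2 (by decide) (hX.1 rfl).2.symm (hins.1 rfl).2.symm
    · exact two x3 (by decide) (hX.2.1 rfl).2.1.symm (hins.2.1 rfl).2.1.symm
    · exact two z1 (by decide) (hX.2.1 rfl).2.2.2.2.symm (hins.2.1 rfl).2.2.2.2.symm
    · exact two z0 (by decide) (hX.2.2 rfl).2.symm (hins.2.2 rfl).2.symm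
    · exact two y0 (by decide) (hX.2.1 rfl).2.2.1.symm (hins.2.1 rfl).2.2.1.symm

theorem not_prismaticallyCollapsible : ¬ PrismaticallyCollapsible W := by
  rintro ⟨P, hP⟩
  exact Position.not_collapsible (obstruction P) 0 hP

/-- The relators as elements of the free group. -/
def R (j : Fin 3) : FreeGroup (Fin 3) := FreeGroup.mk (W j)

theorem toWord_R : (fun j => (R j).toWord) = W := by
  funext j
  revert j
  decide

/-- The three relators in terms of the generators. -/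
theorem R_zero : R 0 = FreeGroup.of 0 * (FreeGroup.of 1)⁻¹ * FreeGroup.of 0 * (FreeGroup.of 1)⁻¹ *
    (FreeGroup.of 1)⁻¹ * (FreeGroup.of 2)⁻¹ := rfl

theorem R_one : R 1 = FreeGroup.of 1 := rfl

theorem R_two : R 2 = FreeGroup.of 2 * FreeGroup.of 1 * FreeGroup.of 0 * (FreeGroup.of 1)⁻¹ *
    (FreeGroup.of 1)⁻¹ * (FreeGroup.of 2)⁻¹ * FreeGroup.of 1 := rfl

/-- The generators expressed by the relators. -/
def S : Fin 3 → FreeGroup (Fin 3)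
  | 0 => FreeGroup.of 0 * FreeGroup.of 2 * (FreeGroup.of 1)⁻¹ * (FreeGroup.of 0)⁻¹ * FreeGroup.of 1
  | 1 => FreeGroup.of 1
  | 2 => FreeGroup.of 2 * (FreeGroup.of 1)⁻¹ * FreeGroup.of 2 * (FreeGroup.of 1)⁻¹ *
      (FreeGroup.of 0)⁻¹ * (FreeGroup.of 1)⁻¹

theorem lift_S_R (j : Fin 3) : FreeGroup.lift S (R j) = FreeGroup.of j := by
  fin_cases j
  · simp only [Fin.zero_eta, Fin.isValue, R_zero, map_mul, map_inv, FreeGroup.lift_apply_of, S]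
    group
  · simp only [Fin.mk_one, Fin.isValue, R_one, FreeGroup.lift_apply_of, S]
  · simp only [Fin.reduceFinMk, Fin.isValue, R_two, map_mul, map_inv, FreeGroup.lift_apply_of, S]
    group

theorem lift_R_S (j : Fin 3) : FreeGroup.lift R (S j) = FreeGroup.of j := by
  fin_cases j
  · simp only [Fin.zero_eta, Fin.isValue, S, map_mul, map_inv, FreeGroup.lift_apply_of, R_zero,
      R_one, R_two]
    group
  · simp only [Fin.mk_one, Fin.isValue, S, FreeGroup.lift_apply_of, R_one]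
  · simp only [Fin.reduceFinMk, Fin.isValue, S, map_mul, map_inv, FreeGroup.lift_apply_of, R_zero,
      R_one, R_two]
    group

/-- The automorphism of the free group that maps the generators to the relators. -/
def equivR : FreeGroup (Fin 3) ≃* FreeGroup (Fin 3) :=
  MonoidHom.toMulEquiv (FreeGroup.lift R) (FreeGroup.lift S)
    (by
      ext j
      simp only [MonoidHom.comp_apply, FreeGroup.lift_apply_of, lift_S_R, MonoidHom.id_apply])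
    (by
      ext j
      simp only [MonoidHom.comp_apply, FreeGroup.lift_apply_of, lift_R_S, MonoidHom.id_apply])

end Pool.Agent.Prismatic.Example
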