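import Pool.Agent.Prismatic.Obstruction

/-!
# An obstruction prevents collapsibility
-/

set_option autoImplicit false

namespace Pool.Agent.Prismatic

namespace Position

variable {n : ℕ} {R : Fin n → List (Fin n × Bool)} {P : Position R}
  {G G' : Fin n → Set (Strand R) → Prop}

/-- Removing a cell keeps the invariant. -/
theorem cell_step (hG : P.Obstruction G G') {F : Set (PFace n)} (hI : Inv P G F)
    {i : Fin n} {k l : ℕ} {e : PEdge n} (hf : PFace.cell i k l ∈ F) (he : e ∈ P.complex.edges)
    (h1 : P.inc (.cell i k l) e = 1) (h2 : ∀ g ∈ F, g ≠ .cell i k l → P.inc g e = 0) :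
    G i (P.above i k l) := by
  obtain ⟨hk, hl⟩ := cell_mem (hI.sub hf)
  have hdisc : ∀ j, P.inc (.disc j) e = 0 := fun j => h2 _ (hI.disc j) (by simp)
  cases e with
  | level i' k' l' =>
    obtain ⟨rfl, rfl⟩ : i = i' ∧ k = k' := by
      by_contra hne
      simp only [inc, if_neg hne] at h1
      omega
    have hns := fun s hs => inc_disc_level_zero hdisc s hs
    have hll : l' = l ∨ l' = l + 1 := by
      by_contra hne
      push Not at hne
      simp only [inc, and_self, if_true, if_neg hne.1, if_neg hne.2] at h1
      omega
    rcases hll with rfl | rfl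
    · -- bottom edge of the cell
      rcases Nat.eq_zero_or_pos l' with h0 | h0
      · subst h0
        have : P.above i k 0 = allS R i := by
          ext s
          simp only [above, allS, Set.mem_ofPred_eq]
          constructor
          · rintro ⟨h, _⟩; exact h
          · intro h
            refine ⟨h, ?_⟩
            have := hns s h
            omega
        rw [this]
        exact hG.all i
      · have h3 : PFace.cell i k (l' - 1) ∉ F := by
          intro h4
          have h5 := h2 _ h4 (by
            intro h6
            injection h6 with _ _ h7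
            omega)
          simp only [inc, and_self, if_true] at h5
          rw [if_pos (show l' = l' - 1 + 1 by omega)] at h5
          omega
        have h4 := hI.good i k (l' - 1) hk (by omega) h3
        have h5 : P.above i k (l' - 1) = P.above i k l' := by
          ext s
          simp only [above, Set.mem_ofPred_eq]
          refine and_congr_right fun hs => ?_
          have := hns s hs
          omega
        rwa [h5] at h4
    · -- top edge of the cell
      rcases Nat.lt_or_ge (l + 1) (P.q i k) with h0 | h0
      · have h3 : PFace.cell i k (l + 1) ∉ F := by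
          intro h4
          have h5 := h2 _ h4 (by
            intro h6
            injection h6 with _ _ h7
            omega)
          simp only [inc, and_self, if_true] at h5
          omega
        have h4 := hI.good i k (l + 1) hk h0 h3
        have h5 : P.above i k (l + 1) = P.above i k l := by
          ext s
          simp only [above, Set.mem_ofPred_eq]
          refine and_congr_right fun hs => ?_
          have := hns s hs
          omega
        rwa [h5] at h4
      · have : P.above i k l = ∅ := by
          ext s
          simp only [above, Set.mem_ofPred_eq, Set.mem_empty_iff_false, iff_false, not_and]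
          intro hs h6
          subst hs
          have h7 := hns s rfl
          have h8 := P.lev_le s.1 s.2 k hk
          change P.lev s.1 s.2 k ≤ P.q (gen s) k at h8
          omega
        rw [this]
        exact hG.empty i
  | vert w r =>
    have hcell : ∀ i' k' l', PFace.cell i' k' l' ≠ .cell i k l →
        P.inc (.cell i' k' l') (.vert w r) ≠ 0 → PFace.cell i' k' l' ∉ F :=
      fun i' k' l' hne h3 h4 => h3 (h2 _ h4 hne)
    have hw : P.IsLine w ∧ r < P.p w := by
      rcases he with ⟨_, _, _, _, _, h⟩ | ⟨w', r', h3, h4, h⟩
      · cases h
      · cases h; exact ⟨h3, h4⟩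
    obtain ⟨hw, hr⟩ := hw
    rcases hw with rfl | ⟨i0, k0, hk0, hk0', rfl⟩
    · -- the line over the vertex
      have hU := inc_disc_none_zero hdisc
      simp only [inc] at h1
      by_cases hA : leftLine i k = none ∧ P.lft i k l ≤ r ∧ r < P.lft i k (l + 1)
      · have hB : ¬ (rightLine P.m i k = none ∧ P.rgt i k l ≤ r ∧ r < P.rgt i k (l + 1)) := by
          intro hB
          rw [if_pos hA, if_pos hB] at h1
          omega
        obtain ⟨hA1, hA2, hA3⟩ := hA
        have hk' := leftLine_eq_none hA1
        subst hk'
        rw [P.above_eq_abL hk hA2 hA3, ← P.ends_false, P.ends_eq_upU hU]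
        refine hG.step r hr hU i false fun i' side' hne => ?_
        rw [← P.ends_eq_upU hU]
        refine good_ends hI hr i' side' fun k' l' hs1 hs2 => ?_
        cases side' with
        | false =>
          obtain ⟨rfl, h3, h4⟩ := hs1 rfl
          refine hcell _ _ _ ?_ ?_
          · intro h5
            injection h5 with h6
            exact hne ⟨h6, rfl⟩
          · exact inc_cell_left h3 h4
        | true =>
          obtain ⟨h6, h3, h4⟩ := hs2 rfl
          have h7 : rightLine P.m i' k' = none := by rw [h6]; exact rightLine_last P.m_pos i'
          refine hcell _ _ _ ?_ ?_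
          · intro h5
            injection h5 with h8 h9 h10
            subst h8 h9 h10
            exact hB ⟨h7, h3, h4⟩
          · rw [← h7]
            exact inc_cell_right h3 h4
      · have hB : rightLine P.m i k = none ∧ P.rgt i k l ≤ r ∧ r < P.rgt i k (l + 1) := by
          by_contra hB
          rw [if_neg hA, if_neg hB] at h1
          omega
        obtain ⟨hB1, hB2, hB3⟩ := hB
        have hk' : k = P.m i - 1 := by have := rightLine_eq_none hB1; omega
        subst hk'
        rw [P.above_eq_abR hk hB2 hB3, ← P.ends_true, P.ends_eq_upU hU]
        refine hG.step r hr hU i true fun i' side' hne => ?_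
        rw [← P.ends_eq_upU hU]
        refine good_ends hI hr i' side' fun k' l' hs1 hs2 => ?_
        cases side' with
        | false =>
          obtain ⟨h6, h3, h4⟩ := hs1 rfl
          have h7 : leftLine i' k' = none := by rw [h6]; rfl
          refine hcell _ _ _ ?_ ?_
          · intro h5
            injection h5 with h8 h9 h10
            subst h8 h10
            refine hA ⟨?_, ?_⟩
            · rw [← h9]; exact h7
            · rw [← h9, h6]; exact ⟨h3, h4⟩
          · rw [h6]
            exact inc_cell_left h3 h4
        | true =>
          obtain ⟨h6, h3, h4⟩ := hs2 rfl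
          have h7 : rightLine P.m i' k' = none := by rw [h6]; exact rightLine_last P.m_pos i'
          refine hcell _ _ _ ?_ ?_
          · intro h5
            injection h5 with h8
            exact hne ⟨h8, rfl⟩
          · rw [← h7]
            exact inc_cell_right h3 h4
    · -- an inner line
      have hns := fun s hs => inc_disc_inner_zero hdisc s hs
      have heq : P.abL i0 k0 r = P.abR i0 (k0 - 1) r := by
        ext s
        simp only [abL, abR, Set.mem_ofPred_eq]
        refine and_congr_right fun hs => ?_
        exact (hns s hs).symm
      simp only [inc] at h1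
      by_cases hA : leftLine i k = some (i0, k0) ∧ P.lft i k l ≤ r ∧ r < P.lft i k (l + 1)
      · obtain ⟨hA1, hA2, hA3⟩ := hA
        obtain ⟨rfl, rfl⟩ := leftLine_eq_some hA1
        rw [P.above_eq_abL hk hA2 hA3, heq]
        refine good_right hI (by omega) (by rw [rightLine_pred hk0 hk0']; exact hr) ?_
        intro l' h3 h4
        refine hcell _ _ _ ?_ ?_
        · intro h5
          injection h5 with _ h6
          omega
        · rw [← rightLine_pred (m := P.m) hk0 hk0']
          exact inc_cell_right h3 h4
      · have hB : rightLine P.m i k = some (i0, k0) ∧ P.rgt i k l ≤ r ∧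
            r < P.rgt i k (l + 1) := by
          by_contra hB
          rw [if_neg hA, if_neg hB] at h1
          omega
        obtain ⟨hB1, hB2, hB3⟩ := hB
        obtain ⟨rfl, rfl⟩ := rightLine_eq_some hB1
        rw [P.above_eq_abR hk hB2 hB3]
        rw [show k + 1 - 1 = k by omega] at heq
        rw [← heq]
        refine good_left hI hk0' (by rw [leftLine_pos hk0]; exact hr) ?_
        intro l' h3 h4
        refine hcell _ _ _ ?_ ?_
        · intro h5
          injection h5 with _ h6
          omega
        · rw [← leftLine_pos (i := i) hk0]
          exact inc_cell_left h3 h4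

/-- If the `j`-th disc runs exactly once over an edge and the others do not, there is exactly one
strand with the corresponding property. -/
theorem exists_unique_strand {j : Fin n} {Q : (j : Fin n) → Fin (R j).length → Prop}
    [∀ j, DecidablePred (Q j)]
    (h1 : (Finset.univ.filter fun t => Q j t).card = 1)
    (h2 : ∀ j', j' ≠ j → (Finset.univ.filter fun t => Q j' t).card = 0) :
    ∃ t0 : Fin (R j).length, Q j t0 ∧ ∀ s : Strand R, Q s.1 s.2 → s = ⟨j, t0⟩ := by
  obtain ⟨t0, ht0⟩ := Finset.card_eq_one.1 h1
  have h3 : t0 ∈ Finset.univ.filter fun t => Q j t := by rw [ht0]; simp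
  refine ⟨t0, (Finset.mem_filter.1 h3).2, ?_⟩
  rintro ⟨j', t'⟩ hs
  by_cases hj : j' = j
  · subst hj
    have h4 : t' ∈ Finset.univ.filter fun t => Q j' t := Finset.mem_filter.2 ⟨Finset.mem_univ _, hs⟩
    rw [ht0, Finset.mem_singleton] at h4
    rw [h4]
  · exfalso
    have h4 := h2 j' hj
    rw [Finset.card_eq_zero, Finset.filter_eq_empty_iff] at h4
    exact h4 (Finset.mem_univ t') hs

theorem bool_aux {a b : Bool} (h : ¬ a = b) : (!b) = a := by
  revert h; revert a b; decide

/-- The first disc cannot be removed over the vertex line. -/
theorem disc_none (hG : P.Obstruction G G') {r : ℕ} (hr : ∀ i side, G i (P.ends i side r))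
    (c : Strand R) (hc : ¬ (r < P.hts c (sgn c) ↔ r < P.hts (nxt c) (!sgn (nxt c))))
    (hc' : ∀ s : Strand R, ¬ (r < P.hts s (sgn s) ↔ r < P.hts (nxt s) (!sgn (nxt s))) → s = c) :
    False := by
  classical
  set u : Strand R → Prop := fun s => r < P.hts s (sgn s) ∨ r < P.hts (nxt s) (!sgn (nxt s))
    with hu
  have huc : u c := by
    by_contra h
    simp only [hu] at h
    push Not at h
    exact hc ⟨fun h' => absurd h' (not_lt.2 h.1), fun h' => absurd h' (not_lt.2 h.2)⟩
  have hadm : P.Adm u := by
    intro r' hr'
    rcases lt_trichotomy r' r with h | h | h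
    · left
      intro s hs
      rcases hs with hs | hs
      · exact h.trans hs
      · exact (hr' s).2 (h.trans hs)
    · subst h
      exact absurd (hr' c) hc
    · right
      intro s hs
      exact Or.inl (h.trans hs)
  -- the corner of a strand at a side is above if the strand is
  have hup : ∀ (s : Strand R) (side : Bool), r < P.hts s side → u (cornerOf s side) := by
    intro s side h
    by_cases h1 : side = sgn s
    · simp only [cornerOf, if_pos h1]
      left; rwa [← h1]
    · simp only [cornerOf, if_neg h1]
      right
      rw [nxt_prv]
      have : (!sgn s) = side := bool_aux h1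
      rwa [this]
  have hdn : ∀ (s : Strand R) (side : Bool), cornerOf s side ≠ c → u (cornerOf s side) →
      r < P.hts s side := by
    intro s side h0 h
    have h2 : (r < P.hts (cornerOf s side) (sgn (cornerOf s side)) ↔
        r < P.hts (nxt (cornerOf s side)) (!sgn (nxt (cornerOf s side)))) := by
      by_contra h3
      exact h0 (hc' _ h3)
    by_cases h1 : side = sgn s
    · simp only [cornerOf, if_pos h1] at h h2
      rw [h1]
      rcases h with h | h
      · exact h
      · exact h2.2 h
    · simp only [cornerOf, if_neg h1, nxt_prv] at h h2
      have h4 : (!sgn s) = side := bool_aux h1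
      rw [h4] at h2
      rcases h with h | h
      · exact h2.1 h
      · rw [nxt_prv, h4] at h
        exact h
  -- the end at which the corner is below
  obtain ⟨s2, side2, hcs, hbelow, huniq⟩ : ∃ (s2 : Strand R) (side2 : Bool),
      cornerOf s2 side2 = c ∧ ¬ r < P.hts s2 side2 ∧
      ∀ (s : Strand R) (side : Bool), cornerOf s side = c → ¬ r < P.hts s side →
        s = s2 ∧ side = side2 := by
    by_cases h : r < P.hts c (sgn c)
    · have h' : ¬ r < P.hts (nxt c) (!sgn (nxt c)) := fun h' => hc ⟨fun _ => h', fun _ => h⟩
      refine ⟨nxt c, !sgn (nxt c), ?_, h', ?_⟩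
      · simp [cornerOf, prv_nxt]
      · intro s side h1 h2
        by_cases h3 : side = sgn s
        · simp only [cornerOf, if_pos h3] at h1
          subst h1
          rw [h3] at h2
          exact absurd h h2
        · simp only [cornerOf, if_neg h3] at h1
          have h4 : s = nxt c := by rw [← h1, nxt_prv]
          refine ⟨h4, ?_⟩
          rw [← h4]
          exact (bool_aux h3).symm
    · refine ⟨c, sgn c, by simp [cornerOf], h, ?_⟩
      intro s side h1 h2
      by_cases h3 : side = sgn s
      · simp only [cornerOf, if_pos h3] at h1
        subst h1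
        exact ⟨rfl, h3⟩
      · simp only [cornerOf, if_neg h3] at h1
        have h4 : s = nxt c := by rw [← h1, nxt_prv]
        have h5 : r < P.hts (nxt c) (!sgn (nxt c)) := by
          by_contra h5
          exact hc ⟨fun h' => absurd h' h, fun h' => absurd h' h5⟩
        exfalso
        apply h2
        have h6 : (!sgn s) = side := bool_aux h3
        rw [← h6, h4]
        exact h5
  -- all other ends are unchanged
  have hother : ∀ i' side', ¬ (i' = gen s2 ∧ side' = side2) →
      upU u i' side' = P.ends i' side' r := by
    intro i' side' hne
    ext s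
    simp only [upU, ends, Set.mem_ofPred_eq]
    refine and_congr_right fun hs => ⟨fun h => ?_, hup s side'⟩
    by_cases h1 : cornerOf s side' = c
    · by_contra h2
      obtain ⟨rfl, rfl⟩ := huniq s side' h1 h2
      exact hne ⟨hs.symm, rfl⟩
    · exact hdn s side' h1 h
  have hthis : upU u (gen s2) side2 = insert s2 (P.ends (gen s2) side2 r) := by
    ext s
    simp only [upU, ends, Set.mem_ofPred_eq, Set.mem_insert_iff]
    constructor
    · rintro ⟨hs, h⟩
      by_cases h1 : cornerOf s side2 = c
      · by_cases h2 : r < P.hts s side2
        · exact Or.inr ⟨hs, h2⟩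
        · exact Or.inl (huniq s side2 h1 h2).1
      · exact Or.inr ⟨hs, hdn s side2 h1 h⟩
    · rintro (rfl | ⟨hs, h⟩)
      · exact ⟨rfl, by rw [hcs]; exact huc⟩
      · exact ⟨hs, hup s side2 h⟩
  refine hG.single (gen s2) (P.ends (gen s2) side2 r) s2 rfl ?_ (hG.weaken _ _ (hr _ _)) ?_
  · rintro ⟨_, h⟩
    exact hbelow h
  · rw [← hthis]
    refine hG.step' u hadm (gen s2) side2 fun i' side' hne => ?_
    rw [hother i' side' hne]
    exact hr i' side'

/-- No disc can be removed. -/
theorem disc_step (hG : P.Obstruction G G') {F : Set (PFace n)} (hI : Inv P G F)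
    {j : Fin n} {e : PEdge n} (he : e ∈ P.complex.edges)
    (h1 : P.inc (.disc j) e = 1) (h2 : ∀ g ∈ F, g ≠ .disc j → P.inc g e = 0) : False := by
  have hcell : ∀ i' k' l', P.inc (.cell i' k' l') e ≠ 0 → PFace.cell i' k' l' ∉ F :=
    fun i' k' l' h3 h4 => h3 (h2 _ h4 (by simp))
  have hdisc : ∀ j', j' ≠ j → P.inc (.disc j') e = 0 := fun j' h =>
    h2 _ (hI.disc j') (by simpa using h)
  cases e with
  | level i k l =>
    have hkl : k < P.m i ∧ l ≤ P.q i k := by
      rcases he with ⟨_, _, _, h3, h4, h⟩ | ⟨_, _, _, _, h⟩
      · cases h; exact ⟨h3, h4⟩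
      · cases h
    obtain ⟨hk, hl⟩ := hkl
    obtain ⟨t0, ⟨ht1, ht2⟩, huniq⟩ := exists_unique_strand
      (Q := fun j t => ((R j).get t).1 = i ∧ P.lev j t k = l) h1 hdisc
    set s0 : Strand R := ⟨j, t0⟩ with hs0
    -- strands above the edge
    have hA : G i {s | gen s = i ∧ l < P.lev s.1 s.2 k} := by
      rcases Nat.lt_or_ge l (P.q i k) with h0 | h0
      · exact hI.good i k l hk h0 (hcell _ _ _ (by simp [inc]))
      · have : {s : Strand R | gen s = i ∧ l < P.lev s.1 s.2 k} = ∅ := by
          ext s
          simp only [Set.mem_ofPred_eq, Set.mem_empty_iff_false, iff_false, not_and]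
          intro hs h6
          subst hs
          have h8 := P.lev_le s.1 s.2 k hk
          change P.lev s.1 s.2 k ≤ P.q (gen s) k at h8
          omega
        rw [this]
        exact hG.empty i
    have hB : G i {s | gen s = i ∧ l ≤ P.lev s.1 s.2 k} := by
      rcases Nat.eq_zero_or_pos l with h0 | h0
      · have : {s : Strand R | gen s = i ∧ l ≤ P.lev s.1 s.2 k} = allS R i := by
          ext s
          simp [allS, h0]
        rw [this]
        exact hG.all i
      · have h3 := hI.good i k (l - 1) hk (by omega) (hcell _ _ _ (by
          simp only [inc, and_self, if_true]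
          rw [if_pos (show l = l - 1 + 1 by omega)]
          omega))
        have h4 : P.above i k (l - 1) = {s : Strand R | gen s = i ∧ l ≤ P.lev s.1 s.2 k} := by
          ext s
          simp only [above, Set.mem_ofPred_eq]
          refine and_congr_right fun _ => ?_
          omega
        rwa [h4] at h3
    refine hG.single i _ s0 ht1 ?_ (hG.weaken _ _ hA) ?_
    · rintro ⟨_, h⟩
      have h' : l < P.lev j t0 k := h
      omega
    · have h4 : insert s0 {s | gen s = i ∧ l < P.lev s.1 s.2 k} =
          {s : Strand R | gen s = i ∧ l ≤ P.lev s.1 s.2 k} := by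
        ext s
        simp only [Set.mem_insert_iff, Set.mem_ofPred_eq]
        constructor
        · rintro (rfl | ⟨h5, h6⟩)
          · exact ⟨ht1, ht2.ge⟩
          · exact ⟨h5, h6.le⟩
        · rintro ⟨h5, h6⟩
          rcases h6.lt_or_eq with h7 | h7
          · exact Or.inr ⟨h5, h7⟩
          · exact Or.inl (huniq s ⟨h5, h7.symm⟩)
      rw [h4]
      exact hG.weaken _ _ hB
  | vert w r =>
    have hw : P.IsLine w ∧ r < P.p w := by
      rcases he with ⟨_, _, _, _, _, h⟩ | ⟨w', r', h3, h4, h⟩
      · cases h
      · cases h; exact ⟨h3, h4⟩
    obtain ⟨hw, hr⟩ := hw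
    rcases hw with rfl | ⟨i, k, hk0, hk, rfl⟩
    · -- the line over the vertex
      obtain ⟨t0, ht1, huniq⟩ := exists_unique_strand
        (Q := fun j t => Between (P.endHt j t) (P.startHt j (next t)) r) h1 hdisc
      have hgood : ∀ i side, G i (P.ends i side r) := by
        intro i side
        refine good_ends hI hr i side fun k l hs1 hs2 => hcell _ _ _ ?_
        cases side with
        | false =>
          obtain ⟨rfl, h3, h4⟩ := hs1 rfl
          exact inc_cell_left h3 h4
        | true =>
          obtain ⟨h6, h3, h4⟩ := hs2 rfl
          have h7 : rightLine P.m i k = none := by rw [h6]; exact rightLine_last P.m_pos i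
          rw [← h7]
          exact inc_cell_right h3 h4
      refine disc_none hG hgood ⟨j, t0⟩ ?_ ?_
      · intro h
        exact (not_between_iff.2 h) ht1
      · intro s hs
        apply huniq s
        by_contra h
        exact hs (not_between_iff.1 h)
    · -- an inner line
      obtain ⟨t0, ⟨ht1, ht2⟩, huniq⟩ := exists_unique_strand
        (Q := fun j t => ((R j).get t).1 = i ∧
          Between (P.rgt i (k - 1) (P.lev j t (k - 1))) (P.lft i k (P.lev j t k)) r) h1 hdisc
      set s0 : Strand R := ⟨j, t0⟩ with hs0
      have hA : G i (P.abR i (k - 1) r) := by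
        refine good_right hI (by omega) (by rw [rightLine_pred hk0 hk]; exact hr) ?_
        intro l' h3 h4
        refine hcell _ _ _ ?_
        rw [← rightLine_pred (m := P.m) hk0 hk]
        exact inc_cell_right h3 h4
      have hB : G i (P.abL i k r) := by
        refine good_left hI hk (by rw [leftLine_pos hk0]; exact hr) ?_
        intro l' h3 h4
        refine hcell _ _ _ ?_
        rw [← leftLine_pos (i := i) hk0]
        exact inc_cell_left h3 h4
      have heq : ∀ s : Strand R, s ≠ s0 → gen s = i →
          (r < P.rgt i (k - 1) (P.lev s.1 s.2 (k - 1)) ↔ r < P.lft i k (P.lev s.1 s.2 k)) := by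
        intro s hs hi
        rw [← not_between_iff]
        intro h
        exact hs (huniq s ⟨hi, h⟩)
      have hne : ¬ (r < P.rgt i (k - 1) (P.lev j t0 (k - 1)) ↔ r < P.lft i k (P.lev j t0 k)) :=
        fun h => (not_between_iff.2 h) ht2
      by_cases hup : r < P.rgt i (k - 1) (P.lev j t0 (k - 1))
      · have hup' : ¬ r < P.lft i k (P.lev j t0 k) := fun h => hne ⟨fun _ => h, fun _ => hup⟩
        refine hG.single i _ s0 ht1 ?_ (hG.weaken _ _ hB) ?_
        · rintro ⟨_, h⟩; exact hup' h
        · have h4 : insert s0 (P.abL i k r) = P.abR i (k - 1) r := by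
            ext s
            simp only [Set.mem_insert_iff, abL, abR, Set.mem_ofPred_eq]
            constructor
            · rintro (rfl | ⟨h5, h6⟩)
              · exact ⟨ht1, hup⟩
              · by_cases hs : s = s0
                · subst hs; exact ⟨ht1, hup⟩
                · exact ⟨h5, (heq s hs h5).2 h6⟩
            · rintro ⟨h5, h6⟩
              by_cases hs : s = s0
              · exact Or.inl hs
              · exact Or.inr ⟨h5, (heq s hs h5).1 h6⟩
          rw [h4]
          exact hG.weaken _ _ hA
      · have hup' : r < P.lft i k (P.lev j t0 k) := by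
          by_contra h
          exact hne ⟨fun h' => absurd h' hup, fun h' => absurd h' h⟩
        refine hG.single i _ s0 ht1 ?_ (hG.weaken _ _ hA) ?_
        · rintro ⟨_, h⟩; exact hup h
        · have h4 : insert s0 (P.abR i (k - 1) r) = P.abL i k r := by
            ext s
            simp only [Set.mem_insert_iff, abL, abR, Set.mem_ofPred_eq]
            constructor
            · rintro (rfl | ⟨h5, h6⟩)
              · exact ⟨ht1, hup'⟩
              · by_cases hs : s = s0
                · subst hs; exact ⟨ht1, hup'⟩
                · exact ⟨h5, (heq s hs h5).1 h6⟩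
            · rintro ⟨h5, h6⟩
              by_cases hs : s = s0
              · exact Or.inl hs
              · exact Or.inr ⟨h5, (heq s hs h5).2 h6⟩
          rw [h4]
          exact hG.weaken _ _ hB

/-- A complex satisfying the invariant does not collapse to a point. -/
theorem not_collapses (hG : P.Obstruction G G') (j0 : Fin n) {F : Set P.complex.Face}
    {E : Set P.complex.Edge} {V : Set P.complex.Vert} (hc : P.complex.Collapses F E V)
    (hE : E ⊆ P.complex.edges) (hI : Inv P G F) : False := by
  induction hc with
  | point x => exact absurd (hI.disc j0) (Set.notMem_empty _)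
  | @face F E V f e hf he h1 h2 h ih =>
    have hE' : E \ {e} ⊆ P.complex.edges := fun x hx => hE hx.1
    cases f with
    | cell i k l =>
      have hgood := cell_step hG hI hf (hE he) h1 h2
      refine ih hE' ⟨fun j => ⟨hI.disc j, fun h => ?_⟩, fun x hx => hI.sub hx.1, ?_⟩
      · have h' : (PFace.disc j : PFace n) = .cell i k l := Set.mem_singleton_iff.1 h
        cases h'
      intro i' k' l' hk' hl' hnot
      by_cases heq : (PFace.cell i' k' l' : PFace n) = .cell i k l
      · injection heq with h3 h4 h5
        subst h3 h4 h5
        exact hgood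
      · exact hI.good i' k' l' hk' hl' fun hmem => hnot ⟨hmem, fun h => heq
          (Set.mem_singleton_iff.1 h)⟩
    | disc j => exact disc_step hG hI (hE he) h1 h2
  | @edge F E V e x y he hx hends hxy h1 h2 h ih =>
    exact ih (fun z hz => hE hz.1) hI

theorem not_collapsible (hG : P.Obstruction G G') (j0 : Fin n) : ¬ P.complex.Collapsible :=
  fun h => not_collapses hG j0 h subset_rfl (inv_init hG)

end Position

end Pool.Agent.Prismatic
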