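import Pool.Agent.Prismatic.Defs

/-!
# A criterion for non-collapsibility

The cells of the annuli that can be removed before the first disc are described by the set of
strands above them.
-/

set_option autoImplicit false

namespace Pool.Agent.Prismatic

/-- The index before `t` in the cyclic order of `Fin L`. -/
def prev {L : ℕ} (t : Fin L) : Fin L := ⟨(t.1 + (L - 1)) % L, Nat.mod_lt _ t.pos⟩

theorem next_prev {L : ℕ} (t : Fin L) : next (prev t) = t := by
  have h := t.isLt
  ext
  simp only [next, prev]
  rcases Nat.eq_zero_or_pos t.1 with h0 | h0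
  · rw [h0, Nat.zero_add, Nat.mod_eq_of_lt (show L - 1 < L by omega),
      show L - 1 + 1 = L by omega, Nat.mod_self]
  · rw [show t.1 + (L - 1) = (t.1 - 1) + L by omega, Nat.add_mod_right,
      Nat.mod_eq_of_lt (show t.1 - 1 < L by omega), show t.1 - 1 + 1 = t.1 by omega,
      Nat.mod_eq_of_lt h]

theorem prev_next {L : ℕ} (t : Fin L) : prev (next t) = t := by
  have h := t.isLt
  ext
  simp only [next, prev]
  rcases Nat.lt_or_ge (t.1 + 1) L with h0 | h0
  · rw [Nat.mod_eq_of_lt h0, show t.1 + 1 + (L - 1) = t.1 + L by omega, Nat.add_mod_right,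
      Nat.mod_eq_of_lt h]
  · have h1 : t.1 + 1 = L := by omega
    rw [h1, Nat.mod_self, Nat.zero_add, Nat.mod_eq_of_lt (show L - 1 < L by omega)]
    omega

theorem not_between_iff {x y r : ℕ} : ¬ Between x y r ↔ (r < x ↔ r < y) := by
  unfold Between
  omega

variable {n : ℕ} {R : Fin n → List (Fin n × Bool)}

/-- The strands: letters of the relators.  A strand also stands for the corner at its end. -/
abbrev Strand (R : Fin n → List (Fin n × Bool)) : Type := Σ j : Fin n, Fin (R j).length

/-- generator of a strand -/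
def gen (s : Strand R) : Fin n := ((R s.1).get s.2).1

/-- sign of a strand -/
def sgn (s : Strand R) : Bool := ((R s.1).get s.2).2

/-- next strand of the same relator -/
def nxt (s : Strand R) : Strand R := ⟨s.1, next s.2⟩

/-- previous strand of the same relator -/
def prv (s : Strand R) : Strand R := ⟨s.1, prev s.2⟩

theorem nxt_prv (s : Strand R) : nxt (prv s) = s := by
  simp [nxt, prv, next_prev]

theorem prv_nxt (s : Strand R) : prv (nxt s) = s := by
  simp [nxt, prv, prev_next]

/-- all strands over a generator -/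
def allS (R : Fin n → List (Fin n × Bool)) (i : Fin n) : Set (Strand R) := {s | gen s = i}

/-- The corner at the left or right end of a strand, named by the strand preceding it. -/
def cornerOf (s : Strand R) (side : Bool) : Strand R := if side = sgn s then s else prv s

/-- Strands over `a_i` whose corner at the given side satisfies `u`. -/
def upU (u : Strand R → Prop) (i : Fin n) (side : Bool) : Set (Strand R) :=
  {s | gen s = i ∧ u (cornerOf s side)}

namespace Position

variable (P : Position R)

/-- Strands above a cell. -/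
def above (i : Fin n) (k l : ℕ) : Set (Strand R) := {s | gen s = i ∧ l < P.lev s.1 s.2 k}

/-- Strands above the vertical edge `r` at the left end of a slab. -/
def abL (i : Fin n) (k r : ℕ) : Set (Strand R) :=
  {s | gen s = i ∧ r < P.lft i k (P.lev s.1 s.2 k)}

/-- Strands above the vertical edge `r` at the right end of a slab. -/
def abR (i : Fin n) (k r : ℕ) : Set (Strand R) :=
  {s | gen s = i ∧ r < P.rgt i k (P.lev s.1 s.2 k)}

/-- height of a strand at a side -/
def hts (s : Strand R) (side : Bool) : ℕ := P.ht s.1 s.2 side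

/-- no corner straddles the vertical edge `r` over the vertex of `K` -/
def Unstr (r : ℕ) : Prop :=
  ∀ s : Strand R, (r < P.hts s (sgn s) ↔ r < P.hts (nxt s) (!sgn (nxt s)))

/-- the corners above the vertical edge `r` -/
def upC (r : ℕ) : Strand R → Prop := fun s => r < P.hts s (sgn s)

/-- sets of corners that are comparable with the sets of corners above unstraddled edges -/
def Adm (u : Strand R → Prop) : Prop :=
  ∀ r, P.Unstr r → (∀ c, u c → P.upC r c) ∨ (∀ c, P.upC r c → u c)

theorem hts_false (s : Strand R) : P.hts s false = P.lft (gen s) 0 (P.lev s.1 s.2 0) := rfl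

theorem hts_true (s : Strand R) :
    P.hts s true = P.rgt (gen s) (P.m (gen s) - 1) (P.lev s.1 s.2 (P.m (gen s) - 1)) := rfl

/-- the strands above the edge `r` at an end of an annulus -/
def ends (i : Fin n) (side : Bool) (r : ℕ) : Set (Strand R) := {s | gen s = i ∧ r < P.hts s side}

theorem ends_false (i : Fin n) (r : ℕ) : P.ends i false r = P.abL i 0 r := by
  ext s
  simp only [ends, abL, Set.mem_ofPred_eq]
  constructor
  · rintro ⟨rfl, h⟩; exact ⟨rfl, h⟩
  · rintro ⟨rfl, h⟩; exact ⟨rfl, h⟩

theorem ends_true (i : Fin n) (r : ℕ) : P.ends i true r = P.abR i (P.m i - 1) r := by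
  ext s
  simp only [ends, abR, Set.mem_ofPred_eq]
  constructor
  · rintro ⟨rfl, h⟩; exact ⟨rfl, h⟩
  · rintro ⟨rfl, h⟩; exact ⟨rfl, h⟩

theorem ends_eq_upU {r : ℕ} (hr : P.Unstr r) (i : Fin n) (side : Bool) :
    P.ends i side r = upU (P.upC r) i side := by
  ext s
  simp only [ends, upU, Set.mem_ofPred_eq, upC, cornerOf]
  refine and_congr_right fun _ => ?_
  by_cases h : side = sgn s
  · rw [if_pos h, h]
  · rw [if_neg h]
    have h1 := hr (prv s)
    rw [nxt_prv] at h1
    rw [h1]
    have : side = !sgn s := by
      cases side <;> cases hs : sgn s <;> simp_all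
    rw [this]

/-- some cell of a slab contains a given edge of its left line -/
theorem exists_cell_aux (f : ℕ → ℕ) (q p r : ℕ) (h0 : f 0 = 0) (hq : f q = p) (hr : r < p) :
    ∃ l, l < q ∧ f l ≤ r ∧ r < f (l + 1) := by
  by_contra hcon
  push Not at hcon
  have : ∀ l, l ≤ q → f l ≤ r := by
    intro l
    induction l with
    | zero => intro _; omega
    | succ l ih => intro hl; exact hcon l (by omega) (ih (by omega))
  have := this q le_rfl
  omega

theorem above_eq_abL {i : Fin n} {k l r : ℕ} (hk : k < P.m i) (h1 : P.lft i k l ≤ r)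
    (h2 : r < P.lft i k (l + 1)) : P.above i k l = P.abL i k r := by
  ext s
  simp only [above, abL, Set.mem_ofPred_eq]
  refine and_congr_right fun _ => ?_
  constructor
  · intro h
    exact h2.trans_le (P.lft_mono i k hk h)
  · intro h
    by_contra h'
    have := P.lft_mono i k hk (not_lt.1 h')
    omega

theorem above_eq_abR {i : Fin n} {k l r : ℕ} (hk : k < P.m i) (h1 : P.rgt i k l ≤ r)
    (h2 : r < P.rgt i k (l + 1)) : P.above i k l = P.abR i k r := by
  ext s
  simp only [above, abR, Set.mem_ofPred_eq]
  refine and_congr_right fun _ => ?_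
  constructor
  · intro h
    exact h2.trans_le (P.rgt_mono i k hk h)
  · intro h
    by_contra h'
    have := P.rgt_mono i k hk (not_lt.1 h')
    omega

/-- The data of an obstruction to collapsibility: families `G` (and weaker families `G'`) of sets of
strands, such that the cells that can be removed before the first disc only have members of `G`
above them. -/
structure Obstruction (G G' : Fin n → Set (Strand R) → Prop) : Prop where
  weaken : ∀ i X, G i X → G' i X
  empty : ∀ i, G i ∅
  all : ∀ i, G i (allS R i)
  step : ∀ r, r < P.p none → P.Unstr r → ∀ i side,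
    (∀ i' side', ¬ (i' = i ∧ side' = side) → G i' (upU (P.upC r) i' side')) →
      G i (upU (P.upC r) i side)
  step' : ∀ u : Strand R → Prop, P.Adm u → ∀ i side,
    (∀ i' side', ¬ (i' = i ∧ side' = side) → G i' (upU u i' side')) → G' i (upU u i side)
  single : ∀ i X s, gen s = i → s ∉ X → G' i X → G' i (insert s X) → False

variable {P}

/-- The invariant of a sequence of collapses: no disc has been removed, and the strands above every
removed cell form a member of `G`. -/
structure Inv (P : Position R) (G : Fin n → Set (Strand R) → Prop) (F : Set (PFace n)) : Prop where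
  disc : ∀ j, PFace.disc j ∈ F
  sub : F ⊆ P.complex.faces
  good : ∀ i k l, k < P.m i → l < P.q i k → PFace.cell i k l ∉ F → G i (P.above i k l)

theorem inv_init {G G' : Fin n → Set (Strand R) → Prop} (_hG : P.Obstruction G G') :
    Inv P G P.complex.faces where
  disc := fun j => Or.inr ⟨j, rfl⟩
  sub := subset_rfl
  good := fun i k l hk hl h => absurd (Or.inl ⟨i, k, l, hk, hl, rfl⟩) h

theorem cell_mem {i : Fin n} {k l : ℕ} (h : PFace.cell i k l ∈ P.complex.faces) :
    k < P.m i ∧ l < P.q i k := by
  rcases h with ⟨i', k', l', hk, hl, h⟩ | ⟨j, h⟩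
  · cases h; exact ⟨hk, hl⟩
  · cases h

theorem good_left {G : Fin n → Set (Strand R) → Prop} {F : Set (PFace n)} (hI : Inv P G F)
    {i : Fin n} {k r : ℕ} (hk : k < P.m i) (hr : r < P.p (leftLine i k))
    (h : ∀ l, P.lft i k l ≤ r → r < P.lft i k (l + 1) → PFace.cell i k l ∉ F) :
    G i (P.abL i k r) := by
  obtain ⟨l, hl, h1, h2⟩ := exists_cell_aux (P.lft i k) (P.q i k) _ r (P.lft_zero i k hk)
    (P.lft_top i k hk) hr
  rw [← P.above_eq_abL hk h1 h2]
  exact hI.good i k l hk hl (h l h1 h2)

theorem good_right {G : Fin n → Set (Strand R) → Prop} {F : Set (PFace n)} (hI : Inv P G F)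
    {i : Fin n} {k r : ℕ} (hk : k < P.m i) (hr : r < P.p (rightLine P.m i k))
    (h : ∀ l, P.rgt i k l ≤ r → r < P.rgt i k (l + 1) → PFace.cell i k l ∉ F) :
    G i (P.abR i k r) := by
  obtain ⟨l, hl, h1, h2⟩ := exists_cell_aux (P.rgt i k) (P.q i k) _ r (P.rgt_zero i k hk)
    (P.rgt_top i k hk) hr
  rw [← P.above_eq_abR hk h1 h2]
  exact hI.good i k l hk hl (h l h1 h2)

/-- incidences of cells -/
theorem inc_cell_left {i : Fin n} {k l r : ℕ} (h1 : P.lft i k l ≤ r)
    (h2 : r < P.lft i k (l + 1)) : P.inc (.cell i k l) (.vert (leftLine i k) r) ≠ 0 := by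
  simp [inc, h1, h2]

theorem inc_cell_right {i : Fin n} {k l r : ℕ} (h1 : P.rgt i k l ≤ r)
    (h2 : r < P.rgt i k (l + 1)) : P.inc (.cell i k l) (.vert (rightLine P.m i k) r) ≠ 0 := by
  simp [inc, h1, h2]

theorem inc_disc_level_zero {i : Fin n} {k l : ℕ}
    (h : ∀ j, P.inc (.disc j) (.level i k l) = 0) (s : Strand R) (hs : gen s = i) :
    P.lev s.1 s.2 k ≠ l := by
  have h1 := h s.1
  simp only [inc, Finset.card_eq_zero, Finset.filter_eq_empty_iff] at h1
  intro h2
  exact h1 (Finset.mem_univ s.2) ⟨hs, h2⟩

theorem inc_disc_inner_zero {i : Fin n} {k r : ℕ}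
    (h : ∀ j, P.inc (.disc j) (.vert (some (i, k)) r) = 0) (s : Strand R) (hs : gen s = i) :
    (r < P.rgt i (k - 1) (P.lev s.1 s.2 (k - 1)) ↔ r < P.lft i k (P.lev s.1 s.2 k)) := by
  have h1 := h s.1
  simp only [inc, Finset.card_eq_zero, Finset.filter_eq_empty_iff] at h1
  rw [← not_between_iff]
  intro h2
  exact h1 (Finset.mem_univ s.2) ⟨hs, h2⟩

theorem inc_disc_none_zero {r : ℕ}
    (h : ∀ j, P.inc (.disc j) (.vert none r) = 0) : P.Unstr r := by
  intro s
  have h1 := h s.1
  simp only [inc, Finset.card_eq_zero, Finset.filter_eq_empty_iff] at h1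
  exact not_between_iff.1 (h1 (Finset.mem_univ s.2))

theorem leftLine_zero (i : Fin n) : leftLine i 0 = none := rfl

theorem leftLine_eq_some {i i' : Fin n} {k k' : ℕ} (h : leftLine i k = some (i', k')) :
    i = i' ∧ k = k' := by
  unfold leftLine at h
  split_ifs at h
  simpa using h

theorem leftLine_eq_none {i : Fin n} {k : ℕ} (h : leftLine i k = none) : k = 0 := by
  unfold leftLine at h
  split_ifs at h with h1
  exact h1

theorem rightLine_eq_some {m : Fin n → ℕ} {i i' : Fin n} {k k' : ℕ}
    (h : rightLine m i k = some (i', k')) : i = i' ∧ k + 1 = k' := by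
  unfold rightLine at h
  split_ifs at h
  simpa using h

theorem rightLine_eq_none {m : Fin n → ℕ} {i : Fin n} {k : ℕ}
    (h : rightLine m i k = none) : k + 1 = m i := by
  unfold rightLine at h
  split_ifs at h with h1
  exact h1

theorem rightLine_last {m : Fin n → ℕ} (hm : ∀ i, 0 < m i) (i : Fin n) :
    rightLine m i (m i - 1) = none := by
  unfold rightLine
  have := hm i
  rw [if_pos (by omega)]

theorem leftLine_pos {i : Fin n} {k : ℕ} (hk : 0 < k) : leftLine i k = some (i, k) := by
  unfold leftLine
  rw [if_neg (by omega)]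

theorem rightLine_pred {m : Fin n → ℕ} {i : Fin n} {k : ℕ} (hk : 0 < k) (hk' : k < m i) :
    rightLine m i (k - 1) = some (i, k) := by
  unfold rightLine
  rw [if_neg (by omega), show k - 1 + 1 = k by omega]

/-- all strand sets at the vertex line are good, except possibly one -/
theorem good_ends {G : Fin n → Set (Strand R) → Prop} {F : Set (PFace n)} (hI : Inv P G F)
    {r : ℕ} (hr : r < P.p none) (i : Fin n) (side : Bool)
    (h : ∀ k l, (side = false → k = 0 ∧ P.lft i 0 l ≤ r ∧ r < P.lft i 0 (l + 1)) →
      (side = true → k = P.m i - 1 ∧ P.rgt i k l ≤ r ∧ r < P.rgt i k (l + 1)) →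
        PFace.cell i k l ∉ F) :
    G i (P.ends i side r) := by
  cases side with
  | false =>
    rw [P.ends_false]
    exact good_left hI (P.m_pos i) (by rw [leftLine_zero]; exact hr)
      (fun l h1 h2 => h 0 l (fun _ => ⟨rfl, h1, h2⟩) (fun h => absurd h (by simp)))
  | true =>
    rw [P.ends_true]
    exact good_right hI (by have := P.m_pos i; omega) (by rw [rightLine_last P.m_pos]; exact hr)
      (fun l h1 h2 => h _ l (fun h => absurd h (by simp)) (fun _ => ⟨rfl, h1, h2⟩))

end Position

end Pool.Agent.Prismatic
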