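import Pool.Agent.Prismatic.Defs

/-!
# A sanity check of the definition of prismatic collapsibility

The presentation `⟨a | a⟩` is prismatically collapsible.
-/

set_option autoImplicit false

namespace Pool.Agent.Prismatic

namespace Sanity

/-- The relator `a`. -/
def R1 : Fin 1 → List (Fin 1 × Bool) := fun _ => [(0, true)]

/-- The boundary curve of the disc in the middle of the annulus. -/
def P1 : Position R1 where
  m := fun _ => 1
  m_pos := by simp
  p := fun _ => 2
  p_pos := by simp
  q := fun _ _ => 2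
  lft := fun _ _ l => min l 2
  rgt := fun _ _ l => min l 2
  lft_mono := by
    intro i k _ a b h
    exact min_le_min_right 2 h
  rgt_mono := by
    intro i k _ a b h
    exact min_le_min_right 2 h
  lft_zero := by simp
  rgt_zero := by simp
  lft_top := by simp
  rgt_top := by simp
  lev := fun _ _ _ => 1
  lev_le := by simp

theorem isLine_iff (w : Line 1) : P1.IsLine w ↔ w = none := by
  constructor
  · rintro (h | ⟨i, k, h0, h1, -⟩)
    · exact h
    · have : P1.m i = 1 := rfl
      omega
  · exact Or.inl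

theorem faces_eq : @Eq (Set (PFace 1)) P1.complex.faces
    {PFace.cell 0 0 0, PFace.cell 0 0 1, PFace.disc 0} := by
  apply Set.ext
  intro f
  constructor
  · rintro (⟨i, k, l, hk, hl, rfl⟩ | ⟨j, rfl⟩)
    · have h1 : k < 1 := hk
      have h2 : l < 2 := hl
      have hi : i = 0 := Subsingleton.elim _ _
      subst hi
      have hk0 : k = 0 := by omega
      subst hk0
      have : l = 0 ∨ l = 1 := by omega
      rcases this with rfl | rfl
      · exact Or.inl rfl
      · exact Or.inr (Or.inl rfl)
    · have hj : j = 0 := Subsingleton.elim _ _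
      subst hj
      exact Or.inr (Or.inr rfl)
  · rintro (rfl | rfl | rfl)
    · exact Or.inl ⟨0, 0, 0, Nat.one_pos, Nat.two_pos, rfl⟩
    · exact Or.inl ⟨0, 0, 1, Nat.one_pos, Nat.one_lt_two, rfl⟩
    · exact Or.inr ⟨0, rfl⟩

theorem edges_eq : @Eq (Set (PEdge 1)) P1.complex.edges
    {PEdge.level 0 0 0, PEdge.level 0 0 1, PEdge.level 0 0 2,
    PEdge.vert none 0, PEdge.vert none 1} := by
  apply Set.ext
  intro f
  constructor
  · rintro (⟨i, k, l, hk, hl, rfl⟩ | ⟨w, r, hw, hr, rfl⟩)
    · have h1 : k < 1 := hk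
      have h2 : l ≤ 2 := hl
      have hi : i = 0 := Subsingleton.elim _ _
      subst hi
      have hk0 : k = 0 := by omega
      subst hk0
      have : l = 0 ∨ l = 1 ∨ l = 2 := by omega
      rcases this with rfl | rfl | rfl
      · exact Or.inl rfl
      · exact Or.inr (Or.inl rfl)
      · exact Or.inr (Or.inr (Or.inl rfl))
    · rw [isLine_iff] at hw
      subst hw
      have h2 : r < 2 := hr
      have : r = 0 ∨ r = 1 := by omega
      rcases this with rfl | rfl
      · exact Or.inr (Or.inr (Or.inr (Or.inl rfl)))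
      · exact Or.inr (Or.inr (Or.inr (Or.inr rfl)))
  · have hl : P1.IsLine none := Or.inl rfl
    rintro (rfl | rfl | rfl | rfl | rfl)
    · exact Or.inl ⟨0, 0, 0, Nat.one_pos, Nat.zero_le _, rfl⟩
    · exact Or.inl ⟨0, 0, 1, Nat.one_pos, one_le_two, rfl⟩
    · exact Or.inl ⟨0, 0, 2, Nat.one_pos, le_rfl, rfl⟩
    · exact Or.inr ⟨none, 0, hl, Nat.two_pos, rfl⟩
    · exact Or.inr ⟨none, 1, hl, Nat.one_lt_two, rfl⟩

theorem verts_eq : @Eq (Set (Line 1 × ℕ)) P1.complex.verts {(none, 0), (none, 1), (none, 2)} := by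
  apply Set.ext
  rintro ⟨w, r⟩
  constructor
  · rintro ⟨hw, hr⟩
    have hw' := (isLine_iff _).1 hw
    have hr' : r ≤ 2 := hr
    change w = none at hw'
    subst hw'
    have : r = 0 ∨ r = 1 ∨ r = 2 := by omega
    rcases this with rfl | rfl | rfl
    · exact Or.inl rfl
    · exact Or.inr (Or.inl rfl)
    · exact Or.inr (Or.inr rfl)
  · have hl : P1.IsLine none := Or.inl rfl
    rintro (h | h | h)
    · cases h; exact ⟨hl, Nat.zero_le _⟩
    · cases h; exact ⟨hl, one_le_two⟩
    · cases h; exact ⟨hl, le_rfl⟩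

theorem stepFace {F F' : Set (PFace 1)} {E E' : Set (PEdge 1)} {V : Set (Line 1 × ℕ)}
    (f : PFace 1) (e : PEdge 1) (hf : f ∈ F) (he : e ∈ E) (h1 : P1.inc f e = 1)
    (h2 : ∀ g ∈ F, g ≠ f → P1.inc g e = 0) (hF : F \ {f} = F') (hE : E \ {e} = E')
    (h : P1.complex.Collapses F' E' V) : P1.complex.Collapses F E V := by
  subst hF hE
  exact .face f e hf he h1 h2 h

theorem stepEdge {F : Set (PFace 1)} {E E' : Set (PEdge 1)} {V V' : Set (Line 1 × ℕ)}
    (e : PEdge 1) (x y : Line 1 × ℕ) (he : e ∈ E) (hx : x ∈ V)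
    (hends : P1.complex.ends e = (x, y)) (hxy : x ≠ y)
    (h1 : ∀ f ∈ F, P1.inc f e = 0)
    (h2 : ∀ e' ∈ E, e' ≠ e → (show (Line 1 × ℕ) × (Line 1 × ℕ) from P1.complex.ends e').1 ≠ x ∧
      (show (Line 1 × ℕ) × (Line 1 × ℕ) from P1.complex.ends e').2 ≠ x)
    (hE : E \ {e} = E') (hV : V \ {x} = V')
    (h : P1.complex.Collapses F E' V') : P1.complex.Collapses F E V := by
  subst hE hV
  exact .edge e x y he hx (Or.inl hends) hxy h1 h2 h

/-- The presentation `⟨a | a⟩` is prismatically collapsible. -/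
theorem prismaticallyCollapsible : PrismaticallyCollapsible R1 := by
  refine ⟨P1, ?_⟩
  unfold TwoComplex.Collapsible
  have hf := faces_eq
  have he := edges_eq
  have hv := verts_eq
  have key : P1.complex.Collapses ({PFace.cell 0 0 0, PFace.cell 0 0 1, PFace.disc 0} :
      Set (PFace 1)) ({PEdge.level 0 0 0, PEdge.level 0 0 1, PEdge.level 0 0 2,
      PEdge.vert none 0, PEdge.vert none 1} : Set (PEdge 1))
      ({(none, 0), (none, 1), (none, 2)} : Set (Line 1 × ℕ)) := by
    refine stepFace (F' := {PFace.cell 0 0 1, PFace.disc 0})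
      (E' := {PEdge.level 0 0 1, PEdge.level 0 0 2, PEdge.vert none 0, PEdge.vert none 1})
      (PFace.cell 0 0 0) (PEdge.level 0 0 0) (by simp) (by simp) (by decide) ?_ ?_ ?_ ?_
    · rintro g (rfl | rfl | rfl) h
      · exact absurd rfl h
      · decide
      · decide
    · ext f; simp
    · ext f; simp
    refine stepFace (F' := {PFace.disc 0})
      (E' := {PEdge.level 0 0 1, PEdge.vert none 0, PEdge.vert none 1})
      (PFace.cell 0 0 1) (PEdge.level 0 0 2) (by simp) (by simp) (by decide) ?_ ?_ ?_ ?_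
    · rintro g (rfl | rfl) h
      · exact absurd rfl h
      · decide
    · ext f; simp
    · ext f; simp; grind
    refine stepFace (F' := ∅) (E' := {PEdge.vert none 0, PEdge.vert none 1})
      (PFace.disc 0) (PEdge.level 0 0 1) (by simp) (by simp) (by decide) ?_ ?_ ?_ ?_
    · rintro g rfl h
      exact absurd rfl h
    · simp
    · ext f; simp
    refine stepEdge (E' := {PEdge.vert none 1}) (V' := {(none, 1), (none, 2)})
      (PEdge.vert none 0) (none, 0) (none, 1) (by simp) (by simp) rfl (by decide) (by simp)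
      ?_ ?_ ?_ ?_
    · rintro e (rfl | rfl) h
      · exact absurd rfl h
      · exact ⟨by decide, by decide⟩
    · ext f; simp
    · ext f; simp
    refine stepEdge (E' := ∅) (V' := {(none, 2)})
      (PEdge.vert none 1) (none, 1) (none, 2) (by simp) (by simp) rfl (by decide) (by simp)
      ?_ ?_ ?_ ?_
    · rintro e rfl h
      exact absurd rfl h
    · simp
    · ext f; simp
    exact .point _
  exact hf ▸ he ▸ hv ▸ key

end Sanity

end Pool.Agent.Prismatic
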